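import Pool.Agent.helper37.NF.Spec

/-! # Row BG2 of project NF -/

set_option autoImplicit false

namespace Pool.Agent.helper37.NF

open Finset Pool.Agent.NK

theorem BG2_rho_pos (s : ℕ) : 0 < rho (s : ℝ) := by
  unfold rho
  have : (0 : ℝ) ≤ s := Nat.cast_nonneg s
  positivity

theorem BG2_step (n s : ℕ) (h : 4 * (s + 3) ≤ n) :
    (n.choose (s + 1) : ℝ) ≤ (((s : ℝ) + 3) * ((s : ℝ) + 2) / ((3 * (s : ℝ) + 11) * (3 * (s : ℝ) + 10))) * (n.choose (s + 3) : ℝ) := by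
  have h1 : n.choose (s + 1 + 1) * (s + 1 + 1) = n.choose (s + 1) * (n - (s + 1)) := Nat.choose_succ_right_eq n (s + 1)
  have h2 : n.choose (s + 2 + 1) * (s + 2 + 1) = n.choose (s + 2) * (n - (s + 2)) := Nat.choose_succ_right_eq n (s + 2)
  have h3 : n.choose (s + 1) * ((3 * s + 11) * (3 * s + 10)) ≤ (s + 3) * (s + 2) * n.choose (s + 3) := by
    calc n.choose (s + 1) * ((3 * s + 11) * (3 * s + 10)) ≤ n.choose (s + 1) * ((n - (s + 1)) * (n - (s + 2))) :=
          Nat.mul_le_mul_left _ (Nat.mul_le_mul (by omega) (by omega))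
      _ = (n.choose (s + 1) * (n - (s + 1))) * (n - (s + 2)) := by ring
      _ = (n.choose (s + 1 + 1) * (s + 1 + 1)) * (n - (s + 2)) := by rw [h1]
      _ = (n.choose (s + 2) * (n - (s + 2))) * (s + 2) := by
          have e : s + 1 + 1 = s + 2 := rfl
          rw [e]; ring
      _ = (n.choose (s + 2 + 1) * (s + 2 + 1)) * (s + 2) := by rw [h2]
      _ = (s + 3) * (s + 2) * n.choose (s + 3) := by
          have e : s + 2 + 1 = s + 3 := rfl
          rw [e]; ring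
  have h4 : (n.choose (s + 1) : ℝ) * ((3 * (s : ℝ) + 11) * (3 * (s : ℝ) + 10)) ≤ ((s : ℝ) + 3) * ((s : ℝ) + 2) * (n.choose (s + 3) : ℝ) := by
    exact_mod_cast h3
  have hp : (0 : ℝ) < (3 * (s : ℝ) + 11) * (3 * (s : ℝ) + 10) := by positivity
  rw [div_mul_eq_mul_div, le_div_iff₀ hp]
  exact h4

theorem BG2 (h1 : AVG_stmt) (h2 : BAS_stmt) (h3 : REC_stmt) : BG2_stmt := by
  intro n s hs hn
  have hrho := BG2_rho_pos s
  have hbase : ∀ a b : ℕ, a + b = 4 * (s + 1) → (a.choose 1 : ℝ) * (b.choose s : ℝ) ≤ 4 / rho (s : ℝ) * ((4 * (s + 1)).choose (1 + s) : ℝ) := by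
    intro a b hab
    have hB := h2 a b 1 s le_rfl hs (by omega)
    have hc1 : cc 1 = 4 := by decide
    rw [hc1] at hB
    have hB' : (a.choose 1 : ℝ) * (b.choose s : ℝ) ≤ 4 * (cc s : ℝ) := by exact_mod_cast hB
    have hR := h3 s
    have e1 : ((4 * (s + 1)).choose (1 + s) : ℝ) = (cc (s + 1) : ℝ) := by
      unfold cc
      rw [Nat.add_comm 1 s]
    rw [e1, hR]
    have e2 : 4 / rho (s : ℝ) * (rho (s : ℝ) * (cc s : ℝ)) = 4 * (cc s : ℝ) := by
      field_simp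
    rw [e2]
    exact hB'
  have hq : (n + 1) / (s + 1) ≤ n := by
    have h5 : (n + 1) / (s + 1) ≤ (n + 1) / 2 := Nat.div_le_div_left (by omega) (by omega)
    omega
  have hA := h1 1 s (4 * (s + 1)) (4 / rho (s : ℝ)) le_rfl hs (by omega) hbase ((n + 1) / (s + 1)) (n - (n + 1) / (s + 1)) (by omega)
  have e3 : (n + 1) / (s + 1) + (n - (n + 1) / (s + 1)) = n := by omega
  rw [e3, Nat.choose_one_right, Nat.add_comm 1 s] at hA
  have e4 : (MV n (s + 1) : ℝ) = (((n + 1) / (s + 1) : ℕ) : ℝ) * ((n - (n + 1) / (s + 1)).choose s : ℝ) := by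
    unfold MV
    rw [Nat.add_sub_cancel, Nat.cast_mul]
  rw [e4]
  refine hA.trans ?_
  rw [mul_assoc]
  exact mul_le_mul_of_nonneg_left (BG2_step n s hn) (by positivity)

end Pool.Agent.helper37.NF
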